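import Pool.Agent.Y742.BS.All

set_option autoImplicit false

/-!
# Varieties connected by fibrations in curves of genus at most one are special and Brody-special

Let `F` be an irreducible polynomial in `N` variables over `ℂ` and `K` the function field of the
hypersurface `F = 0` (every complex variety is birational to such a hypersurface). A dominant
rational fibration of the variety in curves is given by an intermediate field `L` of `K`, the
function field of the base; then `K` is the function field of the generic fibre, a curve over `L`.
We suppose that finitely many such fibrations are given, by `L 1, …, L m`, that their fibres have
genus at most one, and that no nonconstant rational function is algebraic over all the `L i` (so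
general points are connected by chains of fibres).

Then the varieties with the function field `K` are special in the sense of Campana (they have no
Bogomolov sheaf), and every projective variety dominated by the hypersurface has a Zariski dense
entire curve.

No section or multisection, no smoothness and no transversality condition is supposed.

That the generic fibre has genus at most one is expressed as follows: `K` is over `L i` either the
function field of a curve `w² = Q(t)`, with `Q` of degree at most four and not a constant times a
square (this contains all conics), or the function field of a torsor under an elliptic curve over
`L i`; every smooth projective curve of genus one over `L i` is a torsor under its Jacobian.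

The proof. The vector fields tangent to one of the fibrations generate the Lie algebra of all
rational vector fields (an argument with exponentials of vector fields and descent). Consider the
points of the hypersurface over the field of meromorphic functions on `ℂ` which specialize to a
general complex point, and let `P` be one of maximal transcendence degree. The fibre through `P` is
a curve of genus at most one over the field of `P`, which has a point which is transcendental over
this field, by a theorem on meromorphic points of cubics `y² = x³ + a x + b`; for torsors, the curve
through `P` which is used is the image of the elliptic curve in the orbit of `P` under the sums of
conjugates. So the vanishing ideal of `P` is stable under the tangent vector fields, and `P` is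
generic. The variety is special: on a fibre of genus at most one the sections of a power of a rank
one sheaf of forms have, after contraction with the tangent vector field, no poles, so that their
ratios are algebraic over every `L i`, hence constant.
-/

namespace Pool.Agent.Results.MP_1209e6_ag.GenusOneFibrations

open MvPolynomial Pool.Agent.W599.CB Pool.Agent.W572.G Pool.Agent.Y742.GG Pool.Agent.W602.GT

/-- Let `F` be an irreducible polynomial over `ℂ` and let `K` be the function field of `F = 0`. Let
`L i` be finitely many intermediate fields such that `K` is over `L i` the function field of a curve
`w² = Q(t)`, with `Q` of degree at most four and not a constant times a square, or of a torsor under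
an elliptic curve. Suppose that the elements of `K` which are algebraic over every `L i` are
constant. Then `K` is the function field of special varieties, and every projective variety
dominated by the hypersurface `F = 0`, that is, the Zariski closure of its image under a rational
map `[ξ₀ : ... : ξ_M]`, has a Zariski dense entire curve. -/
theorem result {N m : ℕ} (F : MvPolynomial (Fin N) ℂ) (hF : Irreducible F)
    {K : Type} [Field K] [Algebra ℂ K] {x : Fin N → K} (hx : IsGenericPoint F x)
    (L : Fin m → IntermediateField ℂ K)
    (hL : ∀ i, IsDoubleCoverOfLine (L i) ∨ IsEllipticTorsor (L i))
    (hinv : ∀ a : K, (∀ i, IsAlgebraic (L i) a) → a ∈ Set.range (algebraMap ℂ K)) :
    (∃ w : ℕ, Algebra.trdeg ℂ K = w ∧ Special ℂ K w (fun _ => False)) ∧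
    ∀ (M : ℕ) (ξ : Fin (M + 1) → MvPolynomial (Fin N) ℂ),
      (ratImage {v | eval v F = 0} ξ).Nonempty →
      IsBrodySpecial (zariskiClosure (ratImage {v | eval v F = 0} ξ)) :=
  ⟨Pool.Agent.Y742.SP.special_main hx L hL hinv, fun _ ξ hξ =>
    Pool.Agent.Y742.BS.brody Pool.Agent.Y742.BS.sFamAll F hF hx L hL hinv ξ hξ⟩

end Pool.Agent.Results.MP_1209e6_ag.GenusOneFibrations
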