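import Pool.Agent.Y192.KC.All3
import Pool.Agent.Y192.KC.Proj2

/-!
MP_1209e6_ag, Q1: Campana's equivalence of special and Brody special for the covers
`w j ^ e j = F j (t 0 ^ m, …, t n ^ m)` of arbitrary projective varieties, `m` large; logarithmic
version.
-/

set_option autoImplicit false

namespace Pool.Agent.Results.MP_1209e6_ag.KummerSpecial

open FF Pool.Agent.W602.GT Pool.Agent.Y192.KC

/-- Let `Z` be any irreducible projective variety in `P^n`, not in a coordinate hyperplane, with the
homogeneous prime ideal `I`, let `F 1, …, F r` and `G` be forms which do not vanish on `Z`, and let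
`e 1, …, e r` be positive numbers. There is a number `m0` with the following property. Let `m ≥ m0`
be divisible by the `e j`, and let `X` be any irreducible component, of dimension `d`, of the
projective variety with the equations `f (t 0 ^ m, …, t n ^ m) = 0`, `f ∈ I`, and
`w j ^ e j = F j (t 0 ^ m, …, t n ^ m)` in the weighted projective space with the homogeneous
coordinates `t i` and `w j`; `L` is the function field of `X`, and `t`, `w` are the coordinates of its
generic point. Let `X°` be the part of `X` where `G (t 0 ^ m, …, t n ^ m)` does not vanish. Then the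
following are equivalent:
(1) `X°` is special (in the logarithmic sense),
(2) `X°` is Brody special: there is an entire curve in `X°` which is Zariski dense in `X`,
(3) `Z` is the closure of an orbit of a subtorus of the torus of diagonal matrices, on which `G` is a
monomial and the `F j` are products of monomials and `e j`-th powers.
If `G = 1`, so that `X° = X` is projective, then the following are equivalent: `X` is special; `X` is
Brody special; `X` is rational; (3). -/
theorem result {n r : ℕ} (X : ZCov n r) :
    ∃ m0 : ℕ, ∀ m, m0 ≤ m → (∀ j, X.e j ∣ m) →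
      ∀ (L : Type) [Field L] [Algebra ℂ L] (t : Fin (n + 1) → L) (w : Fin r → L),
      ZField X m L t w → ∀ d : ℕ, Algebra.trdeg ℂ L = d →
      [Special ℂ L d (OffG X.toCov m t), DenseCurve X m t w, Toric X].TFAE ∧
      (X.G = 1 → [Special ℂ L d (fun _ => False), DenseCurve X m t w,
        (∃ σ : Fin d → L, AlgebraicIndependent ℂ σ ∧
          IntermediateField.adjoin ℂ (Set.range σ) = ⊤), Toric X].TFAE) := by
  obtain ⟨m0, hm0⟩ := mainS_all X
  refine ⟨max 1 m0, fun m hm he L _ _ t w hF d htr => ?_⟩
  have h := hm0 m ((le_max_right _ _).trans hm) he L t w hF d htr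
  refine ⟨h, fun hG => ?_⟩
  have hoff : OffG X.toCov m t = fun _ => False := off_false (X := X.toCov) hG
  have h1 : Special ℂ L d (fun _ => False) ↔ Toric X := by
    rw [← hoff]
    exact h.out 0 2
  have h2 : Toric X → ∃ σ : Fin d → L, AlgebraicIndependent ℂ σ ∧
      IntermediateField.adjoin ℂ (Set.range σ) = ⊤ := by
    intro hT
    obtain ⟨δ, σ, hb, htop, -⟩ := Pool.Agent.Y379.KS.toric_frame X
      (lt_of_lt_of_le one_pos ((le_max_left _ _).trans hm)) he hT hF
    have hδ : δ = d := by
      have h3 := hb.cardinalMk_eq_trdeg
      rw [htr, Cardinal.mk_fin] at h3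
      exact_mod_cast h3
    subst hδ
    exact ⟨fun k => (σ k : L), hb.1, htop⟩
  have h3 : (∃ σ : Fin d → L, AlgebraicIndependent ℂ σ ∧
      IntermediateField.adjoin ℂ (Set.range σ) = ⊤) → Special ℂ L d (fun _ => False) := by
    rintro ⟨σ, hσ, htop⟩
    refine special_of_frame σ ?_ htop fun P _ h => h
    rw [isTranscendenceBasis_iff_algebraicIndependent_isAlgebraic]
    refine ⟨hσ, ?_⟩
    exact alg_of_top σ htop
  tfae_have 1 ↔ 4 := h1
  tfae_have 2 ↔ 4 := h.out 1 2
  tfae_have 4 → 3 := h2
  tfae_have 3 → 1 := h3
  tfae_finish

end Pool.Agent.Results.MP_1209e6_ag.KummerSpecial
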