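import Pool.Agent.Y216.SV.Hlog2

/-!
MP_1209e6_ag, Q1: special and Brody-special closed subvarieties of the varieties of the vectors
whose `m`-th powers, for instance whose squares, are the values of a polynomial of degree at most
`n` at given constants, and of the complements of coordinate hyperplanes in them.

`PowVal a n m` is the (cone over the) variety `X` in `P^N` of the vectors `x` for which there is a
polynomial `H` of degree at most `n` with `x i ^ m = H (a i)` for all `i`. `Pts U F` is the cone
over the quasi-projective variety `V = {F = 0, x_j ≠ 0 for all j in U}`; `SubVarU U F K w y` means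
that `K` is the function field, and `y` the generic point, of a closed subvariety of dimension `w`
of it, and `OffU U y` are the places of `K` whose centre is not on `V`. `Special` is Campana's
definition by Bogomolov sheaves, with logarithmic forms along the places in `OffU U y`.
-/

set_option autoImplicit false

namespace Pool.Agent.Results.MP_1209e6_ag.PowerValueSpecial

open Pool.Agent.W602.GT Pool.Agent.Y190.BV Pool.Agent.Y190.QP Pool.Agent.H159R3.GGLLog
  Pool.Agent.Y216.SV Pool.Agent.TH710.SP

/-- Let `a 0, ..., a N` be distinct complex numbers, `m ≥ 2` and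
`4 n + (n + 1) ^ 2 < 2 (N + 1)`. Let `V` be a closed subset of the complement of the hyperplanes
`x_j = 0`, `j` in `U`, in the variety `X` of the vectors whose `m`-th powers are the values of a
polynomial of degree at most `n` at the `a i`.

(1) Let `Z` be a closed subvariety of `V`, with function field `K`, dimension `w` and generic point
`y`. If `Z` is special, or Brody-special, that is there is a holomorphic map from the plane to `Z`
with Zariski-dense image, then `Z` is contained in a linear subspace, of dimension at most `n / m`,
which is contained in `X`. If `w + 1 > n / m` then the following are equivalent: `Z` is special; `Z`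
is Brody-special; the closure of `Z` is a linear subspace, and `w = 0` or `U` has at most `w + 1`
elements.

(2) Each entire curve in `V` lies in a linear subspace, of dimension at most `n / m`, which is
contained in `X`.

(3) Let `n < 2 m`. A closed subvariety `Z` of `V` of positive dimension `w` which is not of log
general type is birational to the product of a line with a variety of general type (of dimension
`w - 1`). If there is an entire curve in `V`, then `U` has at most two elements, and each entire
curve in `V` lies in a line which is contained in the closure of `V`. -/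
theorem result {N n m : ℕ} (hm : 2 ≤ m)
    (hN : 4 * n + (n + 1) ^ 2 < 2 * (N + 1)) (a : Fin (N + 1) → ℂ) (ha : Function.Injective a)
    (U : Set (Fin (N + 1))) {ι : Type} (F : ι → MvPolynomial (Fin (N + 1)) ℂ)
    (hF : ∀ e, IsForm (F e)) (hV : Pts U F ⊆ PowVal a n m) :
    (∀ (K : Type) [Field K] [Algebra ℂ K] (w : ℕ) (y : Fin (N + 1) → K), SubVarU U F K w y →
      ((Special ℂ K w (OffU U y) ∨ ∃ f, Pool.Agent.Y216.SV.DenseCurve U y f) →
        ∃ e, e * m ≤ n ∧ w ≤ e ∧ InLinearSpace ℂ a n m e y) ∧
      (n < (w + 1) * m → [Special ℂ K w (OffU U y),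
        ∃ f, Pool.Agent.Y216.SV.DenseCurve U y f,
        IsLinear ℂ y ∧ (w = 0 ∨ U.ncard ≤ w + 1)].TFAE)) ∧
    (∀ f, EntireCurve U F f → ∃ (e : ℕ) (L : Submodule ℂ (Fin (N + 1) → ℂ)), e * m ≤ n ∧
      Module.finrank ℂ L ≤ e + 1 ∧
      (∀ x ∈ L, ∃ H : Polynomial ℂ, H.natDegree ≤ n ∧ ∀ i, x i ^ m = H.eval (a i)) ∧
      ∀ z, f z ∈ L) ∧
    (n < 2 * m →
      (∀ (K : Type) [Field K] [Algebra ℂ K] (w : ℕ) (y : Fin (N + 1) → K), SubVarU U F K w y →
        1 ≤ w → ¬ LogGeneralType ℂ K w (OffU U y) →
          ∃ (M : IntermediateField ℂ K) (t : K), Transcendental M t ∧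
            IntermediateField.adjoin M {t} = ⊤ ∧ GeneralType ℂ M (w - 1)) ∧
      ∀ f, EntireCurve U F f → U.ncard ≤ 2 ∧ ∃ x x', Line F x x' ∧
        ∀ z, ∃ c c' : ℂ, f z = c • x + c' • x') := by
  have hn : n ≤ N := by nlinarith
  have hsub : ConeU U F ⊆ Cone (buchi a n m) := by
    rw [cone_buchi ha hn, Pool.Agent.Y190.QP.coneU_eq]
    exact hV
  have hyb : ∀ (K : Type) [Field K] [Algebra ℂ K] (w : ℕ) (y : Fin (N + 1) → K),
      SubVarU U F K w y → SubVar (buchi a n m) K w y := fun K _ _ w y hy =>
    ⟨hy.ne, sub_extU hsub hy.ne hy.unit hy.mem, hy.gen, hy.dim⟩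
  refine ⟨fun K _ _ w y hy => special_all hm hN ha (hyb K w y hy) hy.unit,
    fun f hf => curve_linear hm hN ha hF hsub hf,
    fun hnm => ⟨fun K _ _ w y hy _ hl => ?_, fun f hf => curve_line hm hnm hN ha hF hsub hf⟩⟩
  obtain ⟨-, w', t, z, rfl, -, -, -, htr, htop, hM, -⟩ :=
    core hm hnm hN ha (hyb K w y hy) fun h => hl (lgt_of_gt h)
  exact ⟨coords ℂ z, t, htr, htop, hM⟩

end Pool.Agent.Results.MP_1209e6_ag.PowerValueSpecial
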