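import Pool.Agent.Y191.Fibs
import Pool.Agent.Y191.Final1

/-!
MP_1209e6_ag, Q1: Campana's conjecture on special and Brody-special varieties for varieties with
arbitrary fibres over subvarieties of projective space, ramified, possibly with small
multiplicities, over many hyperplanes in general position.

The Bogomolov sheaf is given by the `p`-forms of the image, `p` its dimension; its sections are
determinants built from the forms of degree `d + 1` which vanish at the points `ℓ i` (see
`Pool.Agent.Y191`, files `Sym`, `Om`, `Loc`, `Span`, `Form`, `Base`, `BaseForm`, `BaseFin`, `Sec`).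
-/

set_option autoImplicit false

open MvPolynomial Pool.Agent.W602.Cov Pool.Agent.W602.Cov.R Pool.Agent.W602.GT
open Pool.Agent.TH152.HY Pool.Agent.Y191

namespace Pool.Agent.Results.MP_1209e6_ag.SmallMultiplicityFibrations

/-- There is a holomorphic map from the complex plane to `X - D`, given by entire functions `u`, `v`
as homogeneous coordinates, whose image is Zariski dense in `X`. -/
def BrodySpecial {N n : ℕ} (X D : BiSet N n) : Prop :=
  ∃ (u : ℂ → Fin (N + 1) → ℂ) (v : ℂ → Fin (n + 1) → ℂ), Differentiable ℂ u ∧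
    Differentiable ℂ v ∧ (∀ z, X.Mem (u z) (v z) ∧ ¬ D.Mem (u z) (v z)) ∧
    ∀ (G : BiPoly N n) (E E' : ℕ), BiHom G E E' → (∀ z, eval (Sum.elim (u z) (v z)) G = 0) →
      ∀ u' v', X.Mem u' v' → eval (Sum.elim u' v') G = 0

/-- Let the `ℓ i`, `i < q`, define hyperplanes of `P^n` in general position such that the points
`ℓ i` impose independent conditions on the forms of degree `d`, and let the sum of the weights
`wt i` in `[0, 1]` be greater than `2 * (n + d - 1).choose (n - 1)`. Let `X`, `D` be closed subsets
of `P^N × P^n` such that the projection of `X - D` to `P^n` is ramified over the hyperplanes with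
the weights.

(1) All holomorphic maps from `ℂ` to `X - D` lie over a point of `P^n` or over one of the
hyperplanes.

(2) If `X` is irreducible, with function field `K` and generic point `(a, b)`, and its image in
`P^n` is neither a point nor contained in one of the hyperplanes (the fibres are arbitrary), then
`X - D` is neither special nor Brody-special. This applies to all closed subvarieties of `X - D`
whose image is neither a point nor contained in one of the hyperplanes.

(3) If `s > 0`, `2 * n ≤ K * s` and `(n + K).choose n < q`, then there is `d` such that general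
arrangements satisfy the two conditions and `2 * (n + d - 1).choose (n - 1) < q * s`. -/
theorem result {n q : ℕ} (hn : 1 ≤ n) :
    (∀ (d : ℕ) (ℓ : Fin q → Fin (n + 1) → ℂ) (wt : Fin q → ℝ), Independent d ℓ →
      GeneralPosition ℓ → (∀ i, 0 ≤ wt i ∧ wt i ≤ 1) →
      (2 * (n + d - 1).choose (n - 1) : ℕ) < ∑ i, wt i →
      ∀ (N : ℕ) (X D : BiSet N n), RamifiedWt X D ℓ wt →
        (∀ (u : ℂ → Fin (N + 1) → ℂ) (v : ℂ → Fin (n + 1) → ℂ), Differentiable ℂ u →
          Differentiable ℂ v → (∀ z, X.Mem (u z) (v z) ∧ ¬ D.Mem (u z) (v z)) →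
          (∀ z z', ∃ t : ℂ, v z' = t • v z) ∨ ∃ i, ∀ z, ∑ j, ℓ i j * v z j = 0) ∧
        ∀ (K : Type) [Field K] [Algebra ℂ K] (a : Fin (N + 1) → K) (b : Fin (n + 1) → K) (t : ℕ),
        X.FunctionField K a b → Algebra.trdeg ℂ K = t →
        (∃ i j, b j ≠ 0 ∧ ∀ c : ℂ, b i ≠ c • b j) → (∀ i, lf (ℓ i) b ≠ 0) →
        ¬ Special ℂ K t (CentreIn D a b) ∧ ¬ BrodySpecial X D) ∧
    (∀ (K : ℕ) (s : ℝ), 0 < s → 2 * n ≤ K * s → (n + K).choose n < q →
      ∃ d : ℕ, (2 * (n + d - 1).choose (n - 1) : ℕ) < q * s ∧
        ∃ Ψ : MvPolynomial (Fin q × Fin (n + 1)) ℂ, Ψ ≠ 0 ∧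
          ∀ ℓ : Fin q → Fin (n + 1) → ℂ, eval (fun x => ℓ x.1 x.2) Ψ ≠ 0 →
            Independent d ℓ ∧ GeneralPosition ℓ) :=
  ⟨fun _ _ _ hI hg hwt hlt _ _ _ hram =>
    ⟨fun _ _ hu hv hmem => entire_wt hn hI (fun i => (hwt i).1) (fun i => (hwt i).2) hlt hram hu hv
      hmem,
    fun _ _ _ _ _ _ hK htr hpos hl => fib_main hn hI hg (fun i => (hwt i).1)
      (fun i => (hwt i).2) hlt hram hK htr hpos hl⟩,
    fun _ _ hs hK hq => general_arrangements hn hs hK hq⟩

end Pool.Agent.Results.MP_1209e6_ag.SmallMultiplicityFibrations
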